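import Pool.Agent.Y811.PC.Stm
import Pool.Agent.Y736.HL4

/-!
# PC-FATOU: Fatou's theorem with exactly `q` petals (helper349, for helper811)
-/

set_option autoImplicit false

namespace Pool.Agent.Y349.PC

open Complex Metric Set Filter Topology Pool.Agent.H712R2 Pool.Agent.H713R2 N62a1eb23
open Pool.Agent.Y736.HL Pool.Agent.Y736.ML Pool.Agent.Y811.PC

theorem iterP (d : ℕ) (c : ℂ) (n k : ℕ) : (fc d c)^[n] (P d k c) = P d (k + n) c := by
  unfold P
  rw [← Function.iterate_add_apply, add_comm]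

theorem diff_fc (d : ℕ) (c : ℂ) : Differentiable ℂ (fc d c) := by
  unfold fc
  exact (differentiable_id.pow d).add_const c

theorem diff_iter (d : ℕ) (c : ℂ) (n : ℕ) : Differentiable ℂ ((fc d c)^[n]) :=
  (diff_fc d c).iterate n

theorem ne_id {d : ℕ} (hd : 2 ≤ d) (c : ℂ) {N : ℕ} (hN : 1 ≤ N) : ∃ z, (fc d c)^[N] z ≠ z := by
  by_contra hcon
  push Not at hcon
  have hζ := Complex.isPrimitiveRoot_exp d (by omega)
  set ζ := Complex.exp (2 * Real.pi * I / d) with hζd
  obtain ⟨k, rfl⟩ : ∃ k, N = k + 1 := ⟨N - 1, by omega⟩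
  have h1 : (fc d c)^[k + 1] ζ = (fc d c)^[k + 1] 1 := by
    rw [Function.iterate_succ_apply, Function.iterate_succ_apply]
    have : fc d c ζ = fc d c 1 := by
      unfold fc
      rw [hζ.pow_eq_one, one_pow]
    rw [this]
  rw [hcon, hcon] at h1
  exact hζ.ne_one (by omega) h1

/-- residue classes -/
theorem tendsto_of_residues {x : ℕ → ℂ} {z : ℂ} {q : ℕ} (hq : 1 ≤ q)
    (h : ∀ i < q, Tendsto (fun n => x (q * n + i)) atTop (𝓝 z)) : Tendsto x atTop (𝓝 z) := by
  intro s hs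
  have h1 : ∀ᶠ n in atTop, ∀ i ∈ Finset.range q, x (q * n + i) ∈ s := by
    rw [Filter.eventually_all_finset]
    intro i hi
    exact h i (Finset.mem_range.1 hi) hs
  obtain ⟨n₀, hn₀⟩ := eventually_atTop.1 h1
  rw [mem_map, mem_atTop_sets]
  refine ⟨q * n₀, fun k hk => ?_⟩
  have h2 : n₀ ≤ k / q := (Nat.le_div_iff_mul_le (by omega)).2 (by rw [mul_comm]; exact hk)
  have h3 := hn₀ (k / q) h2 (k % q) (Finset.mem_range.2 (Nat.mod_lt _ (by omega)))
  rwa [Nat.div_add_mod] at h3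

theorem t_FATOU (h1 : S_PET) (h2 : S_NULE) (h3 : S_NUGE) : S_FATOU := by
  intro d m q c₀ z₀ hp
  have hN : 1 ≤ m * q := Nat.one_le_iff_ne_zero.2 (Nat.mul_ne_zero
    (by have := hp.hm; omega) (by have := hp.hq; omega))
  have hgq : (G d m c₀)^[q] = (fc d c₀)^[m * q] := by
    unfold G
    rw [Function.iterate_mul]
  have hfix : (fc d c₀)^[m * q] z₀ = z₀ := by
    rw [← hgq]
    exact Function.iterate_fixed hp.fix q
  have hder : deriv ((fc d c₀)^[m * q]) z₀ = 1 := by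
    rw [← hgq]
    have h4 : HasDerivAt (G d m c₀) (mu d m c₀ z₀) z₀ := (diff_iter d c₀ m z₀).hasDerivAt
    rw [(HasDerivAt.iterate z₀ h4 hp.fix q).deriv]
    exact hp.mul.pow_eq_one
  obtain ⟨ν, a, hν, ha, ha0, hev⟩ := parabolic_germ (diff_iter d c₀ (m * q)) hfix hder
    (ne_id hp.hd c₀ hN)
  have hev' : ∀ᶠ u in 𝓝 (0 : ℂ), (G d m c₀)^[q] (z₀ + u) = z₀ + u + u ^ (ν + 1) * a u := by
    rw [hgq]
    exact hev
  have hνq : ν = q := le_antisymm (h2 d m q c₀ z₀ hp ν a hν ha ha0 hev')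
    (h3 (G d m c₀) (diff_iter d c₀ m) z₀ q hp.hq hp.fix hp.mul ν a hν ha ha0 hev')
  subst hνq
  obtain ⟨A, κ, R, w₀, u₀, st⟩ := exists_start hν ha ha0 hev
  obtain ⟨k, j, hj, hkj⟩ := h1 d hp.hd c₀ z₀ (m * ν) hN hfix hder ν a A κ R w₀ u₀ ha ha0 st
  set g := (fc d c₀)^[m * ν] with hg
  have hv : ‖(P d j c₀ - z₀) - Vo g z₀ u₀ k‖ < κ * ‖Vo g z₀ u₀ k‖ := by
    rw [mem_ball, dist_eq_norm] at hkj
    rwa [show P d j c₀ - z₀ - Vo g z₀ u₀ k = P d j c₀ - (z₀ + Vo g z₀ u₀ k) by ring]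
  have hW := st.disc k hv
  have hzv : z₀ + (P d j c₀ - z₀) = P d j c₀ := by ring
  have hit : ∀ n, g^[n] (P d j c₀) = P d (j + m * ν * n) c₀ := by
    intro n
    rw [hg, ← Function.iterate_mul, iterP]
  have hlim : Tendsto (fun n => P d (j + m * ν * n) c₀) atTop (𝓝 z₀) := by
    have h4 := st.pet.tendsto_iter hW
    rw [hzv] at h4
    exact h4.congr hit
  have hne : ∀ n, P d (j + m * ν * n) c₀ ≠ z₀ := by
    intro n hn
    have h4 := (st.pet.loc _ (st.pet.orbit hW n).1).1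
    apply h4
    unfold Vo
    rw [hzv, hit, hn, sub_self]
  -- all the points of the orbit
  have hstep : ∀ l k, (G d m c₀)^[l] (P d (j + m * k) c₀) = P d (j + m * (k + l)) c₀ := by
    intro l k
    unfold G
    rw [← Function.iterate_mul, iterP]
    congr 1
    ring
  have horb : Tendsto (fun k => P d (j + m * k) c₀) atTop (𝓝 z₀) := by
    apply tendsto_of_residues hp.hq
    intro i _
    have h4 : Tendsto (fun n => (G d m c₀)^[i] (P d (j + m * ν * n) c₀)) atTop
        (𝓝 ((G d m c₀)^[i] z₀)) := by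
      have hc : Continuous ((G d m c₀)^[i]) := (diff_iter d c₀ m).continuous.iterate i
      exact (hc.tendsto z₀).comp hlim
    rw [Function.iterate_fixed hp.fix i] at h4
    refine h4.congr fun n => ?_
    have h5 := hstep i (ν * n)
    rw [← mul_assoc] at h5
    exact h5
  have horb2 : ∀ k, P d (j + m * k) c₀ ≠ z₀ := by
    intro k hk
    obtain ⟨l, hl⟩ : ∃ l, ν * k = k + l := Nat.exists_eq_add_of_le (Nat.le_mul_of_pos_left k hν)
    have h5 := hstep l k
    rw [hk, Function.iterate_fixed hp.fix l, ← hl, ← mul_assoc] at h5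
    exact hne k h5.symm
  have hmem : c₀ ∈ multibrotSet d := by
    intro ht
    have ht' : Tendsto (fun k => P d k c₀) atTop (Bornology.cobounded ℂ) := ht
    have h4 : Tendsto (fun k => j + m * k) atTop atTop := by
      apply tendsto_atTop_mono (f := fun k => k) _ tendsto_id
      intro k
      have := hp.hm
      nlinarith
    have h5 := ht'.comp h4
    have h6 := horb.norm
    rw [← tendsto_norm_atTop_iff_cobounded] at h5
    exact not_tendsto_nhds_of_tendsto_atTop h5 _ h6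
  refine ⟨⟨a, ha, ha0, hev'⟩, ⟨j, hj, horb, horb2⟩, hmem, ?_⟩
  exact le_of_tendsto horb.norm (Eventually.of_forall fun k => (mem_multibrot_iff hp.hd c₀).1 hmem _)

end Pool.Agent.Y349.PC
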